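import Pool.Agent.H81.Hy.Barrier

/-!
# The Burau representation at roots of unity and hyperbolic groups

The definitions of the braid group `Br n` (Artin presentation), of the word length `wl x` and of
Gromov's four point condition `FourPt x δ` are in `Pool/Agent/H81/Hy/Main.lean` and
`Pool/Agent/H81/Hy/Wl.lean`; the Burau representation `burau n t` is in
`Pool/Agent/H81/Hy/Burau.lean` and `Pool/Agent/H81/Hy/Barrier.lean`, where also the parameter
`tk k = - exp (2 π i / k)` and the truncated braid group `TBr n k` are defined.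
-/

set_option autoImplicit false

namespace Pool.Agent.Results.MP_eaf2cc_al.BurauBarrier

open H81.Hy

universe u

/-- Let `n ≥ 8` and `k ≥ 4`, or `n ≥ 12` and `k ≥ 3`. No homomorphism `f` from the braid group
`B_n` to a hyperbolic group has a kernel contained in the kernel of the Burau representation at
`t = - exp (2 π i / k)` (where the images of the Artin generators have order `k`). In particular
the truncated braid group, obtained from `B_n` by adding the relations `σ_i ^ k = 1`, is not
hyperbolic. -/
theorem result {n k : ℕ} (h : (8 ≤ n ∧ 4 ≤ k) ∨ (12 ≤ n ∧ 3 ≤ k)) :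
    (∀ (G : Type u) [Group G] (r : ℕ) (x : Fin r → G), Subgroup.closure (Set.range x) = ⊤ →
      ∀ δ : ℕ, FourPt x δ →
        ∀ f : Br n →* G, ∃ b, f b = 1 ∧ burau n (tk k) (tk_ne k) b ≠ 1) ∧
    (∀ (r : ℕ) (x : Fin r → TBr n k), Subgroup.closure (Set.range x) = ⊤ →
      ∀ δ : ℕ, ¬ FourPt x δ) :=
  ⟨fun _ _ _ x hx δ hδ f => burau_barrier h (toHL x hx δ hδ) f,
    fun _ x hx δ hδ => trunc_not_hyp h (toHL x hx δ hδ)⟩

end Pool.Agent.Results.MP_eaf2cc_al.BurauBarrier
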