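import Pool.Agent.H81.Hy.Main

/-!
# Hyperbolicity constants of quotients of braid groups

The definitions of the braid group `Br n` (Artin presentation), of the word length `wl x` and of
Gromov's four point condition `FourPt x δ` are in `Pool/Agent/H81/Hy/Main.lean` and
`Pool/Agent/H81/Hy/Wl.lean`.

Outline of the proof. In a hyperbolic group torsion subgroups are finite, finite subgroups are
conjugate to subsets of the ball of radius `4 δ + 1`, and an element of infinite order generates a
subgroup of finite index in the centraliser of one of its powers. Hence commuting subgroups, one
of them generated by elements of finite order, cannot both be infinite. The images of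
`⟨σ_1, ..., σ_(m - 1)⟩` and `⟨σ_(m + 1), ..., σ_(2 m - 1)⟩`, `2 m ≤ n`, commute and are conjugate, so they
are finite if `f σ_1` has finite order; if it has infinite order, a common power of all `f σ_i` is
central and the commutator subgroup of the image is finite (Schur). In both cases the commutator
subgroups of the two images generate a finite subgroup; it permutes the elements `f σ_1, f σ_3, ...` of
both blocks by conjugation as `Sym k × Sym k`, `k = n / 4`, and these elements are different unless
the image of `f` is cyclic.
-/

set_option autoImplicit false

namespace Pool.Agent.Results.MP_eaf2cc_al.DeltaBound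

open H81.Hy

universe u

/-- Let `G` be generated by `r` elements such that the word metric satisfies Gromov's four point
condition with constant `δ`. If some homomorphism from the braid group on `n ≥ 5` strands to `G`
has non-cyclic image, then `((n / 4)!) ^ 2 ≤ (2 r + 1) ^ (4 δ + 1)`, and `n ≤ 32 δ + 11` if
`r ≤ n - 1` (for instance for a quotient of the braid group with the Artin generators). -/
theorem result {G : Type u} [Group G] {r : ℕ} (x : Fin r → G)
    (hx : Subgroup.closure (Set.range x) = ⊤) (δ : ℕ) (hδ : FourPt x δ) (n : ℕ) (hn : 5 ≤ n)
    (f : Br n →* G) (hf : ¬ IsCyclic f.range) :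
    (Nat.factorial (n / 4)) ^ 2 ≤ (2 * r + 1) ^ (4 * δ + 1) ∧
      (r ≤ n - 1 → n ≤ 32 * δ + 11) :=
  ⟨delta_bound f x hx δ hδ hn hf, delta_linear f x hx δ hδ hn hf⟩

end Pool.Agent.Results.MP_eaf2cc_al.DeltaBound
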