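import Pool.Agent.H81.Hy.Dich

/-!
# A dichotomy for homomorphisms from braid groups to hyperbolic groups

The definitions of the braid group `Br n` (Artin presentation), of the full twists, of the word
length `wl x` and of Gromov's four point condition `FourPt x δ` are in
`Pool/Agent/H81/Hy/Main.lean` and `Pool/Agent/H81/Hy/Wl.lean`.
-/

set_option autoImplicit false

namespace Pool.Agent.Results.MP_eaf2cc_al.FiniteParabolics

open H81.Hy

universe u

/-- Let `f` be a homomorphism from the braid group on `n ≥ 5` strands to a hyperbolic group. Either
the images of the Artin generators have infinite order and the image of `f` is virtually cyclic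
with finite commutator subgroup, or the images of the Artin generators and of all full twists
`(σ_1 ... σ_(m - 1)) ^ m` have finite order, the image of the braid group on `m` strands is finite
for all `m` with `2 m ≤ n`, and the images of `σ_1` and `σ_3` generate a finite subgroup which is
not cyclic (unless the image of `f` is cyclic). -/
theorem result {G : Type u} [Group G] {r : ℕ} (x : Fin r → G)
    (hx : Subgroup.closure (Set.range x) = ⊤) (δ : ℕ) (hδ : FourPt x δ) (n : ℕ) (hn : 5 ≤ n)
    (f : Br n →* G) :
    ((∀ i, ¬ IsOfFinOrder (f (sg i))) ∧ VCyc f.range ∧ Finite (commutator f.range)) ∨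
      ((∀ i, IsOfFinOrder (f (sg i))) ∧ (∀ m, m ≤ n → IsOfFinOrder (f (fullTwist n m))) ∧
        (∀ m, 2 * m ≤ n → Finite (par f m)) ∧
        (¬ IsCyclic f.range →
          Finite (Subgroup.closure {f (sg ⟨0, by omega⟩), f (sg ⟨2, by omega⟩)} : Subgroup G) ∧
          ¬ IsCyclic (Subgroup.closure {f (sg ⟨0, by omega⟩), f (sg ⟨2, by omega⟩)} :
            Subgroup G))) :=
  dichotomy_noncyclic f (toHL x hx δ hδ) hn

end Pool.Agent.Results.MP_eaf2cc_al.FiniteParabolics
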