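import Pool.Agent.H81.Hy.Main

/-!
# Hyperbolic groups with solvable finite subgroups are not quotients of braid groups

The definitions of the braid group `Br n` (Artin presentation), of the word length `wl x` and of
Gromov's four point condition `FourPt x δ` are in `Pool/Agent/H81/Hy/Main.lean` and
`Pool/Agent/H81/Hy/Wl.lean`.
-/

set_option autoImplicit false

namespace Pool.Agent.Results.MP_eaf2cc_al.SolvableTorsion

open H81.Hy

universe u

/-- Every homomorphism from the braid group on `n ≥ 10` strands to a hyperbolic group all of whose
finite subgroups are solvable has cyclic image. -/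
theorem result {G : Type u} [Group G] {r : ℕ} (x : Fin r → G)
    (hx : Subgroup.closure (Set.range x) = ⊤) (δ : ℕ) (hδ : FourPt x δ)
    (hs : ∀ F : Subgroup G, Finite F → Group.IsSolvable F) (n : ℕ) (hn : 10 ≤ n) (f : Br n →* G) :
    IsCyclic f.range :=
  cyclic_of_eq f (by omega) (eq_of_solv f (toHL x hx δ hδ) hn hs)

end Pool.Agent.Results.MP_eaf2cc_al.SolvableTorsion
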